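import Pool.Agent.Helper74.RG.Defs
import Pool.Agent.Helper72.RG.BoxRank

/-!
# Growth of the box (block A5)
-/

set_option autoImplicit false

namespace Pool.Agent.Helper80.RG

open Pool.Agent.Helper74.RG Module

variable {s : ℕ} {k : Type} [Field k] {H : Type} [AddCommGroup H] [Module k H]
  {T : Fin s → Module.End k H}

/-- coefficients in the box. -/
noncomputable def tr (s : ℕ) (k : Type) [Field k] (q : ℕ) :
    MvPowerSeries (Fin s) k →ₗ[k] ((Fin s → Fin q) → k) :=
  LinearMap.pi fun α => MvPowerSeries.coeff (Finsupp.equivFunOnFinite.symm fun i => (α i : ℕ))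

theorem tr_apply (q : ℕ) (f : MvPowerSeries (Fin s) k) (α : Fin s → Fin q) :
    tr s k q f α = MvPowerSeries.coeff (Finsupp.equivFunOnFinite.symm fun i => (α i : ℕ)) f := rfl

theorem tr_eq_zero_iff (q : ℕ) (f : MvPowerSeries (Fin s) k) :
    tr s k q f = 0 ↔ ∀ α : Fin s →₀ ℕ, (∀ i, α i < q) → MvPowerSeries.coeff α f = 0 := by
  constructor
  · intro h α hα
    have h1 := congrFun h (fun i => ⟨α i, hα i⟩)
    rw [tr_apply] at h1
    have h2 : (Finsupp.equivFunOnFinite.symm fun i => α i) = α := by
      ext i; rfl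
    simpa [h2] using h1
  · intro h
    funext α
    rw [tr_apply]
    exact h _ (fun i => (α i).2)

theorem tr_X_pow_mul (q : ℕ) (l : Fin s) (c : MvPowerSeries (Fin s) k) :
    tr s k q (MvPowerSeries.X l ^ q * c) = 0 := by
  rw [tr_eq_zero_iff]
  intro α hα
  exact MvPowerSeries.X_pow_dvd_iff.mp (dvd_mul_right _ _) α (hα l)

theorem smul_comm' {hT : LN T} (c : k) (f : MvPowerSeries (Fin s) k) (x : DR hT) :
    (c • f) • x = c • (f • x) := by
  rw [MvPowerSeries.smul_eq_C_mul, mul_smul, DR.C_smul]

/-- restriction to the box -/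
noncomputable def res (hT : LN T) (q : ℕ) : DR hT →ₗ[k] Module.Dual k (box T q) where
  toFun x := (x.toDual).comp (box T q).subtype
  map_add' x y := rfl
  map_smul' c x := rfl

theorem res_apply (hT : LN T) (q : ℕ) (x : DR hT) (h : box T q) :
    res hT q x h = x.toDual (h : H) := rfl

theorem res_surjective (hT : LN T) (q : ℕ) : Function.Surjective (res hT q) := by
  intro φ
  obtain ⟨x, hx⟩ := Subspace.dualRestrict_surjective (W := box T q) φ
  exact ⟨x, hx⟩

theorem res_smul_eq_zero (hT : LN T) (q : ℕ) {f : MvPowerSeries (Fin s) k}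
    (hf : tr s k q f = 0) (x : DR hT) : res hT q (f • x) = 0 := by
  apply LinearMap.ext
  intro h
  rw [res_apply, DR.smul_apply, hT.act_eq_sum f (S := (finite_lt (s := s) q).toFinset)
    (fun α hα => by rw [Set.Finite.mem_toFinset]; exact hT.supp h.2 hα)]
  rw [tr_eq_zero_iff] at hf
  rw [Finset.sum_eq_zero, map_zero]; · rfl
  intro α hα
  rw [Set.Finite.mem_toFinset] at hα
  rw [hf α hα, zero_smul]

theorem exists_of_res_eq_zero (hT : LN T) (q : ℕ) {x : DR hT} (hx : res hT q x = 0) :
    ∃ μ : Fin s → DR hT, x = ∑ l, (MvPowerSeries.X l ^ q : MvPowerSeries (Fin s) k) • μ l := by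
  classical
  let u : H →ₗ[k] (Fin s → H) := LinearMap.pi fun i => T i ^ q
  have h1 : x.toDual ∈ (LinearMap.ker u).dualAnnihilator := by
    rw [Submodule.mem_dualAnnihilator]
    intro w hw
    have hw' : w ∈ box T q := by
      rw [mem_box]
      intro i
      exact congrFun (LinearMap.mem_ker.mp hw) i
    exact LinearMap.congr_fun hx ⟨w, hw'⟩
  rw [← LinearMap.range_dualMap_eq_dualAnnihilator_ker] at h1
  obtain ⟨y, hy⟩ := h1
  refine ⟨fun l => DR.of hT (y.comp (LinearMap.single k (fun _ => H) l)), ?_⟩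
  apply DR.ext
  intro v
  rw [DR.sum_apply]
  have h2 : ∀ l : Fin s, ((MvPowerSeries.X l ^ q : MvPowerSeries (Fin s) k) •
      DR.of hT (y.comp (LinearMap.single k (fun _ => H) l))).toDual v =
      y (Pi.single l ((T l ^ q) v)) := by
    intro l
    rw [DR.smul_apply]
    have h3 : act T (MvPowerSeries.X l ^ q) v = (T l ^ q) v := by
      rw [← hT.actHom_apply, map_pow]
      congr 2
      apply LinearMap.ext
      intro h
      rw [hT.actHom_apply, hT.act_X]
    rw [h3]
    rfl
  simp only [h2]
  rw [← map_sum, ← hy]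
  change y (u v) = _
  congr 1
  exact (Finset.univ_sum_single (u v)).symm

/-- comparing ranks via kernels -/
theorem finrank_range_le {M N₁ N₂ : Type*} [AddCommGroup M] [Module k M] [AddCommGroup N₁]
    [Module k N₁] [AddCommGroup N₂] [Module k N₂] (A : M →ₗ[k] N₁) (B : M →ₗ[k] N₂)
    [FiniteDimensional k N₁] (h : LinearMap.ker A ≤ LinearMap.ker B) :
    FiniteDimensional k (LinearMap.range B) ∧
    finrank k (LinearMap.range B) ≤ finrank k (LinearMap.range A) := by
  let e := A.quotKerEquivRange.symm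
  let v : (M ⧸ LinearMap.ker A) →ₗ[k] N₂ := (LinearMap.ker A).liftQ B h
  have h1 : LinearMap.range B = LinearMap.range (v.comp e.toLinearMap) := by
    rw [LinearMap.range_comp_of_range_eq_top _ (LinearEquiv.range e)]
    exact ((LinearMap.ker A).range_liftQ B h).symm
  rw [h1]
  exact ⟨inferInstance, LinearMap.finrank_range_le _⟩

/-- basis up to torsion -/
theorem exists_family {R M : Type*} [CommRing R] [IsDomain R] [IsNoetherianRing R]
    [AddCommGroup M] [Module R M] [Module.Finite R M] :
    ∃ (ξ : Fin (finrank R M) → M) (g : R), LinearIndependent R ξ ∧ g ≠ 0 ∧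
      ∀ x, g • x ∈ Submodule.span R (Set.range ξ) := by
  obtain ⟨ξ, hξ⟩ := exists_linearIndependent_of_le_finrank (R := R) (M := M) le_rfl
  refine ⟨ξ, ?_⟩
  set Y := Submodule.span R (Set.range ξ) with hY
  have h1 := Submodule.finrank_quotient_add_finrank (R := R) (M := M) Y
  have h2 : finrank R Y = finrank R M := by
    rw [hY, finrank_span_eq_card hξ, Fintype.card_fin]
  have h3 : finrank R (M ⧸ Y) = 0 := by omega
  rw [Module.finrank_eq_zero_iff_isTorsion] at h3
  obtain ⟨g, hg, hg'⟩ := Submodule.annihilator_top_inter_nonZeroDivisors h3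
  refine ⟨g, hξ, nonZeroDivisors.ne_zero hg', fun x => ?_⟩
  have h4 := Submodule.mem_annihilator.mp hg (Submodule.Quotient.mk x) trivial
  rwa [← Submodule.Quotient.mk_smul, Submodule.Quotient.mk_eq_zero] at h4

theorem exists_family' {R M : Type*} [CommRing R] [IsDomain R] [IsNoetherianRing R]
    [AddCommGroup M] [Module R M] [Module.Finite R M] :
    ∃ (n : ℕ) (ξ : Fin n → M) (g : R), finrank R M = n ∧ LinearIndependent R ξ ∧ g ≠ 0 ∧
      ∀ x, g • x ∈ Submodule.span R (Set.range ξ) := by
  obtain ⟨ξ, g, h⟩ := exists_family (R := R) (M := M)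
  exact ⟨_, ξ, g, rfl, h⟩

/-- the map `f ↦ ∑ f i • ξ i` over `k`. -/
noncomputable def comb {hT : LN T} {n : ℕ} (ξ : Fin n → DR hT) :
    (Fin n → MvPowerSeries (Fin s) k) →ₗ[k] DR hT where
  toFun f := ∑ i, f i • ξ i
  map_add' f g := by
    simp only [Pi.add_apply, add_smul, Finset.sum_add_distrib]
  map_smul' c f := by
    simp only [Pi.smul_apply, smul_comm', Finset.smul_sum, RingHom.id_apply]

theorem comb_apply {hT : LN T} {n : ℕ} (ξ : Fin n → DR hT) (f : Fin n → MvPowerSeries (Fin s) k) :
    comb ξ f = ∑ i, f i • ξ i := rfl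

theorem range_comb {hT : LN T} {n : ℕ} (ξ : Fin n → DR hT) (x : DR hT) :
    x ∈ Submodule.span (MvPowerSeries (Fin s) k) (Set.range ξ) ↔ ∃ f, comb ξ f = x := by
  rw [Submodule.mem_span_range_iff_exists_fun]
  rfl

/-- the product of `n` copies of a map. -/
noncomputable def copies {M N : Type} [AddCommGroup M] [Module k M] [AddCommGroup N] [Module k N]
    (n : ℕ) (B : M →ₗ[k] N) : (Fin n → M) →ₗ[k] (Fin n → N) :=
  LinearMap.pi fun i => B.comp (LinearMap.proj i)

theorem copies_apply {M N : Type} [AddCommGroup M] [Module k M] [AddCommGroup N] [Module k N]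
    (n : ℕ) (B : M →ₗ[k] N) (f : Fin n → M) (i : Fin n) : copies n B f i = B (f i) := rfl

theorem finrank_range_copies {M N : Type} [AddCommGroup M] [Module k M] [AddCommGroup N]
    [Module k N] [FiniteDimensional k N] (n : ℕ) (B : M →ₗ[k] N) :
    finrank k (LinearMap.range (copies n B)) = n * finrank k (LinearMap.range B) := by
  have e : LinearMap.range (copies n B) ≃ₗ[k] (Fin n → LinearMap.range B) :=
    { toFun := fun x i => ⟨(x : Fin n → N) i, by
        obtain ⟨x, f, rfl⟩ := x
        exact ⟨f i, rfl⟩⟩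
      map_add' := fun x y => rfl
      map_smul' := fun c x => rfl
      invFun := fun y => ⟨fun i => (y i : N), by
        choose f hf using fun i => (y i).2
        exact ⟨f, funext hf⟩⟩
      left_inv := fun x => rfl
      right_inv := fun y => rfl }
  rw [e.finrank_eq, Module.finrank_pi_fintype, Finset.sum_const, Finset.card_univ,
    Fintype.card_fin, smul_eq_mul]

/-- A5a -/
theorem growth_lower_of (hT : LN T)
    [Module.Finite (MvPowerSeries (Fin s) k) (DR hT)]
    (hbox : ∀ q, FiniteDimensional k (box T q))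
    (hrank : ∀ g : MvPowerSeries (Fin s) k, g ≠ 0 → ∃ C : ℕ, ∀ q : ℕ, q ^ s ≤
      finrank k (LinearMap.range ((tr s k q).comp (LinearMap.mulLeft k g))) + C * q ^ (s - 1)) :
    ∃ C : ℕ, ∀ q : ℕ, finrank (MvPowerSeries (Fin s) k) (DR hT) * q ^ s ≤
      finrank k (box T q) + C * q ^ (s - 1) := by
  obtain ⟨ρ, ξ, g, hρ, hξ, hg, hgx⟩ :=
    exists_family' (R := MvPowerSeries (Fin s) k) (M := DR hT)
  rw [hρ]
  obtain ⟨C, hC⟩ := hrank g hg
  refine ⟨ρ * C, fun q => ?_⟩
  haveI := hbox q
  have hker : LinearMap.ker ((res hT q).comp (comb ξ)) ≤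
      LinearMap.ker (copies ρ ((tr s k q).comp (LinearMap.mulLeft k g))) := by
    intro f hf
    rw [LinearMap.mem_ker, LinearMap.comp_apply] at hf
    obtain ⟨μ, hμ⟩ := exists_of_res_eq_zero hT q hf
    choose c hc using fun l => (range_comb ξ _).mp (hgx (μ l))
    have h1 : comb ξ (fun i => g * f i) =
        comb ξ (fun i => ∑ l, MvPowerSeries.X l ^ q * c l i) := by
      have h2 : comb ξ (fun i => g * f i) = g • comb ξ f := by
        rw [comb_apply, comb_apply, Finset.smul_sum]
        simp only [mul_smul]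
      rw [h2, hμ, Finset.smul_sum, comb_apply]
      simp only [Finset.sum_smul, mul_smul]
      rw [Finset.sum_comm]
      apply Finset.sum_congr rfl
      intro l _
      rw [smul_comm g, ← hc l, comb_apply, Finset.smul_sum]
    have h3 : (fun i => g * f i) = (fun i => ∑ l, MvPowerSeries.X l ^ q * c l i) := by
      have h4 := Fintype.linearIndependent_iffₛ.mp hξ _ _ h1
      exact funext h4
    rw [LinearMap.mem_ker]
    funext i
    rw [copies_apply, LinearMap.comp_apply, LinearMap.mulLeft_apply, congrFun h3 i, map_sum]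
    apply Finset.sum_eq_zero
    intro l _
    exact tr_X_pow_mul q l _
  have h5 := (finrank_range_le _ _ hker).2
  rw [finrank_range_copies] at h5
  have h6 : finrank k (LinearMap.range ((res hT q).comp (comb ξ))) ≤ finrank k (box T q) := by
    refine (Submodule.finrank_le _).trans ?_
    rw [Subspace.dual_finrank_eq]
  have h7 := Nat.mul_le_mul_left ρ (hC q)
  rw [mul_add] at h7
  rw [mul_assoc]
  omega

/-- A5b -/
theorem growth_upper_of (hT : LN T)
    [Module.Finite (MvPowerSeries (Fin s) k) (DR hT)]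
    (hbox : ∀ q, FiniteDimensional k (box T q))
    (hrank : ∀ g : MvPowerSeries (Fin s) k, g ≠ 0 → ∃ C : ℕ, ∀ q : ℕ, q ^ s ≤
      finrank k (LinearMap.range ((tr s k q).comp (LinearMap.mulLeft k g))) + C * q ^ (s - 1)) :
    ∃ C : ℕ, ∀ q : ℕ, finrank k (box T q) ≤
      finrank (MvPowerSeries (Fin s) k) (DR hT) * q ^ s + C * q ^ (s - 1) := by
  obtain ⟨ρ, ξ, g, hρ, hξ, hg, hgx⟩ :=
    exists_family' (R := MvPowerSeries (Fin s) k) (M := DR hT)
  rw [hρ]
  obtain ⟨C, hC⟩ := hrank g hg
  obtain ⟨m, x, hx⟩ := Module.Finite.exists_fin (R := MvPowerSeries (Fin s) k) (M := DR hT)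
  refine ⟨m * C, fun q => ?_⟩
  haveI := hbox q
  -- the image of the span of `ξ`
  set Y : Submodule k (Module.Dual k (box T q)) := LinearMap.range ((res hT q).comp (comb ξ))
    with hY
  have hY1 : finrank k Y ≤ ρ * q ^ s := by
    have hker : LinearMap.ker (copies ρ (tr s k q)) ≤
        LinearMap.ker ((res hT q).comp (comb ξ)) := by
      intro f hf
      rw [LinearMap.mem_ker] at hf ⊢
      rw [LinearMap.comp_apply, comb_apply, map_sum]
      apply Finset.sum_eq_zero
      intro i _
      exact res_smul_eq_zero hT q (congrFun hf i) _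
    refine (finrank_range_le _ _ hker).2.trans ?_
    refine (Submodule.finrank_le _).trans ?_
    rw [Module.finrank_pi_fintype, Finset.sum_const, Finset.card_univ, Fintype.card_fin,
      smul_eq_mul, Module.finrank_fintype_fun_eq_card, Fintype.card_fun, Fintype.card_fin,
      Fintype.card_fin]
  -- the quotient
  have hY2 : finrank k (Module.Dual k (box T q) ⧸ Y) ≤ m * C * q ^ (s - 1) := by
    let B : MvPowerSeries (Fin s) k →ₗ[k] (((Fin s → Fin q) → k) ⧸
        LinearMap.range ((tr s k q).comp (LinearMap.mulLeft k g))) :=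
      (Submodule.mkQ _).comp (tr s k q)
    let A : (Fin m → MvPowerSeries (Fin s) k) →ₗ[k] (Module.Dual k (box T q) ⧸ Y) :=
      (Submodule.mkQ Y).comp ((res hT q).comp (comb x))
    have hA : LinearMap.range A = ⊤ := by
      rw [LinearMap.range_eq_top]
      intro z
      obtain ⟨φ, rfl⟩ := Submodule.mkQ_surjective Y z
      obtain ⟨y, rfl⟩ := res_surjective hT q φ
      have hy : y ∈ Submodule.span (MvPowerSeries (Fin s) k) (Set.range x) := by
        rw [hx]; trivial
      obtain ⟨f, rfl⟩ := (range_comb x y).mp hy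
      exact ⟨f, rfl⟩
    have hker : LinearMap.ker (copies m B) ≤ LinearMap.ker A := by
      intro f hf
      rw [LinearMap.mem_ker] at hf ⊢
      change (Submodule.mkQ Y) ((res hT q) (comb x f)) = 0
      rw [comb_apply, map_sum, map_sum]
      apply Finset.sum_eq_zero
      intro i _
      have h1 : B (f i) = 0 := congrFun hf i
      change (Submodule.mkQ _) (tr s k q (f i)) = 0 at h1
      rw [Submodule.mkQ_apply, Submodule.Quotient.mk_eq_zero] at h1
      obtain ⟨f', hf'⟩ := h1
      rw [LinearMap.comp_apply, LinearMap.mulLeft_apply] at hf'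
      have h2 : tr s k q (f i - g * f') = 0 := by rw [map_sub, hf', sub_self]
      have h3 := res_smul_eq_zero hT q h2 (x i)
      rw [sub_smul, map_sub, sub_eq_zero] at h3
      rw [h3, Submodule.mkQ_apply, Submodule.Quotient.mk_eq_zero, hY]
      obtain ⟨c, hc⟩ := (range_comb ξ _).mp (hgx (f' • x i))
      refine ⟨c, ?_⟩
      rw [LinearMap.comp_apply, hc, mul_smul]
    have h4 := (finrank_range_le _ _ hker).2
    rw [hA, finrank_top, finrank_range_copies] at h4
    have h5 : finrank k (LinearMap.range B) ≤ C * q ^ (s - 1) := by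
      refine (Submodule.finrank_le _).trans ?_
      have h6 := Submodule.finrank_quotient_add_finrank
        (LinearMap.range ((tr s k q).comp (LinearMap.mulLeft k g)))
      rw [Module.finrank_fintype_fun_eq_card, Fintype.card_fun, Fintype.card_fin,
        Fintype.card_fin] at h6
      have h7 := hC q
      omega
    calc _ ≤ _ := h4
      _ ≤ m * (C * q ^ (s - 1)) := Nat.mul_le_mul_left _ h5
      _ = _ := (mul_assoc _ _ _).symm
  have h8 := Submodule.finrank_quotient_add_finrank Y
  rw [Subspace.dual_finrank_eq] at h8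
  omega

/-- A5a, with block A4 -/
theorem growth_lower' (hT : LN T)
    [Module.Finite (MvPowerSeries (Fin s) k) (DR hT)]
    (hbox : ∀ q, FiniteDimensional k (box T q)) :
    ∃ C : ℕ, ∀ q : ℕ, finrank (MvPowerSeries (Fin s) k) (DR hT) * q ^ s ≤
      finrank k (box T q) + C * q ^ (s - 1) :=
  growth_lower_of hT hbox (fun _ hg => Pool.Agent.Helper72.RG.box_rank hg)

/-- A5b, with block A4 -/
theorem growth_upper' (hT : LN T)
    [Module.Finite (MvPowerSeries (Fin s) k) (DR hT)]
    (hbox : ∀ q, FiniteDimensional k (box T q)) :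
    ∃ C : ℕ, ∀ q : ℕ, finrank k (box T q) ≤
      finrank (MvPowerSeries (Fin s) k) (DR hT) * q ^ s + C * q ^ (s - 1) :=
  growth_upper_of hT hbox (fun _ hg => Pool.Agent.Helper72.RG.box_rank hg)

end Pool.Agent.Helper80.RG
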