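import Pool.Agent.Helper80.RG.Growth
import Pool.Agent.Helper55.RG.A1

/-!
# Growth of the box (block A5), final form
-/

set_option autoImplicit false

namespace Pool.Agent.Helper80.RG

open Pool.Agent.Helper74.RG Module

variable {s : ℕ} {k : Type} [Field k] {H : Type} [AddCommGroup H] [Module k H]
  {T : Fin s → Module.End k H}

/-- A5a -/
theorem growth_lower (hT : LN T) [FiniteDimensional k (inv T)] :
    ∃ C : ℕ, ∀ q : ℕ, finrank (MvPowerSeries (Fin s) k) (DR hT) * q ^ s ≤
      finrank k (box T q) + C * q ^ (s - 1) := by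
  haveI := Pool.Agent.Helper55.RG.finite_DR hT
  exact growth_lower' hT (fun q => Pool.Agent.Helper55.RG.finite_box hT q)

/-- A5b -/
theorem growth_upper (hT : LN T) [FiniteDimensional k (inv T)] :
    ∃ C : ℕ, ∀ q : ℕ, finrank k (box T q) ≤
      finrank (MvPowerSeries (Fin s) k) (DR hT) * q ^ s + C * q ^ (s - 1) := by
  haveI := Pool.Agent.Helper55.RG.finite_DR hT
  exact growth_upper' hT (fun q => Pool.Agent.Helper55.RG.finite_box hT q)

end Pool.Agent.Helper80.RG
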